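import Mathlib.Data.Fin.VecNotation
import Mathlib.Tactic

set_option autoImplicit false

/-!
# Tilings of `ℤ / 4` by two sets
-/

namespace Pool.Agent.H35.FF

/-- There is a run of `m` consecutive residues (from `k` on) outside of `a`. -/
def Run (a : Fin 4 → Bool) (m : ℕ) : Prop := ∃ k : Fin 4, ∀ i : Fin 4, i.1 < m → a (i + k) = false

/-- Each residue is a sum. -/
def Ex (a b : Fin 4 → Bool) : Prop :=
  ∀ n : Fin 4, ∃ i : Fin 4, a i = true ∧ ∃ j : Fin 4, b j = true ∧ i + j = n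

/-- The sums are different. -/
def Un (a b : Fin 4 → Bool) : Prop :=
  ∀ i : Fin 4, a i = true → ∀ i' : Fin 4, a i' = true → ∀ j : Fin 4, b j = true →
    ∀ j' : Fin 4, b j' = true → i + j = i' + j' → i = i'

/-- The conclusion. -/
def Con (a b : Fin 4 → Bool) : Prop :=
  (Run a 0 ∧ Run b 3) ∨ (Run a 1 ∧ Run b 2) ∨ (Run a 2 ∧ Run b 1) ∨ (Run a 3 ∧ Run b 0)

instance (a : Fin 4 → Bool) (m : ℕ) : Decidable (Run a m) := by
  unfold Run
  infer_instance

instance (a b : Fin 4 → Bool) : Decidable (Ex a b) := by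
  unfold Ex
  infer_instance

instance (a b : Fin 4 → Bool) : Decidable (Un a b) := by
  unfold Un
  infer_instance

instance (a b : Fin 4 → Bool) : Decidable (Con a b) := by
  unfold Con
  infer_instance

set_option maxRecDepth 100000 in
theorem dec0 : ∀ a0 a1 a2 a3 b0 b1 b2 b3 : Bool,
    Ex ![a0, a1, a2, a3] ![b0, b1, b2, b3] → Un ![a0, a1, a2, a3] ![b0, b1, b2, b3] →
    Con ![a0, a1, a2, a3] ![b0, b1, b2, b3] := by
  decide

theorem vec_eq (a : Fin 4 → Bool) : a = ![a 0, a 1, a 2, a 3] := by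
  funext i
  fin_cases i <;> rfl

/-- Two subsets of `ℤ / 4` which tile have runs of lengths with sum three in their complements. -/
theorem dec (a b : Fin 4 → Bool) (h1 : Ex a b) (h2 : Un a b) :
    ∃ m n : ℕ, m + n = 3 ∧ Run a m ∧ Run b n := by
  rw [vec_eq a, vec_eq b] at h1 h2 ⊢
  rcases dec0 _ _ _ _ _ _ _ _ h1 h2 with h | h | h | h
  · exact ⟨0, 3, rfl, h⟩
  · exact ⟨1, 2, rfl, h⟩
  · exact ⟨2, 1, rfl, h⟩
  · exact ⟨3, 0, rfl, h⟩

end Pool.Agent.H35.FF
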