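import Pool.Agent.H35.FF.Dec
import Pool.Agent.H35.TY.Asm
import Pool.Agent.H35.CX.Api
import Pool.Agent.H35.FC.Gf
import Pool.Agent.H35.FC.Tree
import Pool.Agent.H35.FS.Max
import Pool.Agent.H35.FS.Deg

set_option autoImplicit false

/-!
# Codes with `y ^ 4` in which `y` occurs at most four times in each word
-/

namespace Pool.Agent.H35.FF

open Pool.Agent.H35 (CX.Ctx)
open Pool.Agent.H35.FC (Tiles IsCode Facts IsPrefixCode)
open Pool.Agent.H35.CX (RC LC uniq not_N A_snoc B_cons endA endB revF mem_revF mem_rev)
open Pool.Agent.H35.FS (deg SDeg SMax st_last)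
open Pool.Agent.H35.TY (wt deg_wt)

variable {α : Type} [DecidableEq α] {C : Set (List α)} {A B : List α → Set (List α)}
  {N : List α → List α → Set (List α)} {y : α}

theorem rep_unique (hC : IsCode C) {m n : ℕ} (hm : List.replicate m y ∈ C)
    (hn : List.replicate n y ∈ C) : m = n := by
  have h := hC.2 [List.replicate m y, List.replicate n y] [List.replicate n y, List.replicate m y]
    (by
      intro c hc
      simp only [List.mem_cons, List.not_mem_nil, or_false] at hc
      rcases hc with rfl | rfl
      · exact hm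
      · exact hn)
    (by
      intro c hc
      simp only [List.mem_cons, List.not_mem_nil, or_false] at hc
      rcases hc with rfl | rfl
      · exact hn
      · exact hm)
    (by
      simp only [List.flatten_cons, List.flatten_nil, List.append_nil]
      rw [← List.replicate_add, ← List.replicate_add, add_comm])
  have h1 := congrArg List.length (List.cons.inj h).1
  simpa using h1

theorem star_rep (hy : List.replicate 4 y ∈ C) (k : ℕ) :
    List.replicate (4 * k) y ∈ FC.Star C := by
  induction k with
  | zero => exact ⟨[], by simp, by simp⟩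
  | succ k ih =>
    have : 4 * (k + 1) = 4 * k + 4 := by ring
    rw [this, List.replicate_add]
    exact FC.star_append ih (FC.star_of_mem hy)

theorem star_rep_dvd (hC : IsCode C) (hy : List.replicate 4 y ∈ C) {l : ℕ}
    (h : List.replicate l y ∈ FC.Star C) : 4 ∣ l := by
  obtain ⟨L, hL, he⟩ := h
  induction L generalizing l with
  | nil =>
    have := congrArg List.length he
    simp at this
    subst this
    exact dvd_zero 4
  | cons c L ih =>
    rw [List.flatten_cons] at he
    obtain ⟨h1, h2, h3⟩ := List.append_eq_replicate_iff.1 he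
    have hc := hL c (by simp)
    rw [h2] at hc
    have h4 := rep_unique hC hc hy
    have h5 := ih (fun c hc => hL c (List.mem_cons_of_mem _ hc)) h3
    omega

theorem leA (H : CX.Ctx C A B N) (h4 : ∀ w ∈ C, w.count y ≤ 4) (g v : List α)
    (hv : v ∈ A (g ++ [y])) : v.count y ≤ 3 := by
  obtain ⟨p, hp⟩ := endA H hv
  have h1 := h4 _ hp
  rw [List.count_append, List.count_cons_self] at h1
  omega

/-- One step of rotation. -/
theorem rot1 (H : CX.Ctx C A B N) (h4 : ∀ w ∈ C, w.count y ≤ 4) (hy : List.replicate 4 y ∈ C)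
    (g : List α) (i : ℕ) (hi : i < 4) :
    List.replicate i y ∈ A ((g ++ [y]) ++ [y]) ↔ List.replicate ((i + 1) % 4) y ∈ A (g ++ [y]) := by
  rw [H.snA, ← List.replicate_succ]
  rcases Nat.lt_or_ge i 3 with h | h
  · rw [Nat.mod_eq_of_lt (by omega)]
    constructor
    · rintro (h1 | ⟨-, h1⟩)
      · exact h1
      · have := rep_unique H.code h1 hy
        omega
    · exact Or.inl
  · have hi3 : i = 3 := by omega
    subst hi3
    constructor
    · rintro (h1 | ⟨h1, -⟩)
      · have := leA H h4 g _ h1
        rw [List.count_replicate_self] at this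
        omega
      · exact h1
    · intro h1
      exact Or.inr ⟨h1, hy⟩

theorem rot (H : CX.Ctx C A B N) (h4 : ∀ w ∈ C, w.count y ≤ 4) (hy : List.replicate 4 y ∈ C)
    (k : ℕ) (g : List α) (i : ℕ) (hi : i < 4) :
    List.replicate i y ∈ A ((g ++ List.replicate k y) ++ [y]) ↔
      List.replicate ((i + k) % 4) y ∈ A (g ++ [y]) := by
  induction k generalizing i with
  | zero => rw [List.replicate_zero, List.append_nil, add_zero, Nat.mod_eq_of_lt hi]
  | succ k ih =>
    rw [List.replicate_succ', ← List.append_assoc, rot1 H h4 hy _ i hi,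
      ih _ (Nat.mod_lt _ (by norm_num))]
    have : ((i + 1) % 4 + k) % 4 = (i + (k + 1)) % 4 := by omega
    rw [this]

/-- No small power of `y` in the completions: the degree drops. -/
theorem drop (H : CX.Ctx C A B N) (m : ℕ) : ∀ (μ : ℕ) (g : List α),
    (∀ i < μ, List.replicate i y ∉ A (g ++ [y])) → (∀ v ∈ A (g ++ [y]), v.count y ≤ m + μ) →
    ∀ v ∈ A ((g ++ [y]) ++ List.replicate μ y), v.count y ≤ m := by
  intro μ
  induction μ with
  | zero =>
    intro g _ h v hv
    rw [List.replicate_zero, List.append_nil] at hv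
    exact h v hv
  | succ μ ih =>
    intro g h1 h2 v hv
    have h0 : ¬ RC A (g ++ [y]) := h1 0 (by omega)
    refine ih (g ++ [y]) (fun i hi h => ?_) (fun v hv => ?_) v ?_
    · rcases A_snoc H h with h3 | ⟨h3, -⟩
      · exact h1 (i + 1) (by omega) (by rw [List.replicate_succ]; exact h3)
      · exact h0 h3
    · rcases A_snoc H hv with h3 | ⟨h3, -⟩
      · have := h2 _ h3
        rw [List.count_cons_self] at this
        omega
      · exact absurd h3 h0
    · rw [List.replicate_succ, List.append_cons] at hv
      exact hv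

/-- A run in the complement gives a left context of small degree. -/
theorem small (H : CX.Ctx C A B N) (h4 : ∀ w ∈ C, w.count y ≤ 4) (hy : List.replicate 4 y ∈ C)
    (g : List α) (a : Fin 4 → Bool)
    (ha : ∀ i : Fin 4, a i = true ↔ List.replicate i.1 y ∈ A (g ++ [y])) {m n : ℕ}
    (hmn : m + n = 3) (hr : Run a n) : ∃ g', ∀ v ∈ A g', v.count y ≤ m := by
  obtain ⟨k, hk⟩ := hr
  refine ⟨((g ++ List.replicate k.1 y) ++ [y]) ++ List.replicate n y, drop H m n _ ?_ ?_⟩
  · intro i hi h
    have hi4 : i < 4 := by omega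
    rw [rot H h4 hy k.1 g i hi4] at h
    have h1 := hk ⟨i, hi4⟩ hi
    have h2 := (ha (⟨i, hi4⟩ + k)).2 (by
      rw [Fin.val_add]
      exact h)
    rw [h1] at h2
    exact Bool.false_ne_true h2
  · intro v hv
    rw [hmn]
    exact leA H h4 _ v hv

theorem exists_large (H : CX.Ctx C A B N) (g f : List α) (n : ℕ) :
    ∃ M, List.replicate (4 * M + n) y ∉ N g f := by
  by_contra hcon
  push Not at hcon
  have hinj : Function.Injective fun M : ℕ => List.replicate (4 * M + n) y := by
    intro M M' h
    have := congrArg List.length h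
    simp only [List.length_replicate] at this
    omega
  exact Set.infinite_of_injective_forall_mem hinj hcon (H.finN g f)

/-- The statement. -/
theorem tiling [Fintype α] (hdeg : SDeg) (H : CX.Ctx C A B N) (h4 : ∀ w ∈ C, w.count y ≤ 4)
    (hy : List.replicate 4 y ∈ C) :
    ∃ S Q : Set (List α), S.Finite ∧ Q.Finite ∧ Tiles C S Q ∅ := by
  classical
  set a : Fin 4 → Bool := fun i => decide (List.replicate i.1 y ∈ A ([] ++ [y])) with ha
  set b : Fin 4 → Bool := fun i => decide (List.replicate i.1 y ∈ B [y]) with hb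
  have ha' : ∀ i : Fin 4, a i = true ↔ List.replicate i.1 y ∈ A ([] ++ [y]) := fun i =>
    decide_eq_true_iff
  have hb' : ∀ i : Fin 4, b i = true ↔ List.replicate i.1 y ∈ B [y] := fun i =>
    decide_eq_true_iff
  have hleB : ∀ v ∈ B [y], v.count y ≤ 3 := by
    intro v hv
    obtain ⟨s, hs⟩ := endB H hv
    have h1 := h4 _ hs
    simp only [List.count_append, List.count_cons_self, List.count_nil] at h1
    omega
  have hE : Ex a b := by
    intro n
    obtain ⟨M, hM⟩ := exists_large (y := y) H ([] ++ [y]) [y] n.1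
    obtain ⟨t, ⟨h1, h2, h3, h5⟩, -⟩ := (H.tiles ([] ++ [y]) [y] _).2 hM
    obtain ⟨e1, e2, e3⟩ := List.append_eq_replicate_iff.1 h5
    obtain ⟨e4, e5, e6⟩ := List.append_eq_replicate_iff.1 e3
    rw [e2] at h1
    rw [e5] at h2
    rw [e6] at h3
    have l1 := leA H h4 [] _ h1
    have l3 := hleB _ h3
    have l2 := star_rep_dvd H.code hy h2
    rw [List.count_replicate_self] at l1 l3
    refine ⟨⟨t.1.length, by omega⟩, (ha' _).2 h1, ⟨t.2.2.length, by omega⟩, (hb' _).2 h3, ?_⟩
    apply Fin.ext
    rw [Fin.val_add]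
    simp only
    rw [List.length_append] at e1 
    have := n.2
    omega
  have hU : Un a b := by
    have key : ∀ i i' j j' : Fin 4, a i = true → a i' = true → b j = true → b j' = true →
        (i.1 + j.1) % 4 = (i'.1 + j'.1) % 4 → i.1 + j.1 ≤ i'.1 + j'.1 → i = i' := by
      intro i i' j j' hi hi' hj hj' he hle
      obtain ⟨k, hk⟩ : ∃ k, i'.1 + j'.1 = i.1 + j.1 + 4 * k :=
        ⟨(i'.1 + j'.1 - (i.1 + j.1)) / 4, by omega⟩
      have h1 := (uniq H (g := [] ++ [y]) (f := [y]) ((ha' i).1 hi) (star_rep hy k)
        ((hb' j).1 hj) ((ha' i').1 hi') FC.star_nil ((hb' j').1 hj') (by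
          rw [List.nil_append, ← List.replicate_add, ← List.replicate_add, ← List.replicate_add]
          congr 1
          omega)).1
      have h2 := congrArg List.length h1
      simp only [List.length_replicate] at h2
      exact Fin.ext h2
    intro i hi i' hi' j hj j' hj' he
    have he' : (i.1 + j.1) % 4 = (i'.1 + j'.1) % 4 := by
      have := congrArg Fin.val he
      rwa [Fin.val_add, Fin.val_add] at this
    rcases le_total (i.1 + j.1) (i'.1 + j'.1) with h | h
    · exact key i i' j j' hi hi' hj hj' he' h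
    · exact (key i' i j' j hi' hi hj' hj he'.symm h).symm
  obtain ⟨m, n, hmn, hm, hn⟩ := dec a b hE hU
  obtain ⟨g, hg⟩ := small H h4 hy [] a ha' (m := n) (n := m) (by omega) hm
  obtain ⟨f, hf⟩ := small H.rev (fun w hw => by
      obtain ⟨v, hv, rfl⟩ := hw
      rw [List.count_reverse]
      exact h4 v hv) (by
      rw [mem_rev, List.reverse_replicate]
      exact hy) [] b (fun i => by
      rw [hb' i, mem_revF, List.reverse_replicate]
      rfl) (m := m) (n := n) hmn hn
  have hf' : ∀ v ∈ B f.reverse, v.count y ≤ m := by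
    intro v hv
    have := hf v.reverse (by rw [mem_revF, List.reverse_reverse]; exact hv)
    rwa [List.count_reverse] at this
  have hN : N g f.reverse = ∅ := by
    by_contra hcon
    obtain ⟨u, hu⟩ := Set.nonempty_iff_ne_empty.2 hcon
    have ht := H.tiles g f.reverse
    obtain ⟨s, hs, p, hp, hsp⟩ := hdeg α H.fin.toFinset (H.finA g).toFinset
      (H.finB f.reverse).toFinset (H.finN g f.reverse).toFinset (wt y) y (by simp [wt])
      (by rw [Set.Finite.coe_toFinset]; exact H.code)
      (by simpa only [Set.Finite.coe_toFinset] using ht) u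
      ((Set.Finite.mem_toFinset _).2 hu) (List.replicate 4 y) ((Set.Finite.mem_toFinset _).2 hy)
    rw [Set.Finite.mem_toFinset] at hs hp
    rw [deg_wt, deg_wt, deg_wt, deg_wt, List.count_replicate_self] at hsp
    have h1 := hg s hs
    have h2 := hf' p hp
    omega
  refine ⟨A g, B f.reverse, H.finA g, H.finB _, ?_⟩
  rw [← hN]
  exact H.tiles g f.reverse

/-- A finite maximal code with `y ^ 4` in which `y` occurs at most four times in each word is
factorizing and commutatively equivalent to a prefix code. -/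
theorem four [Fintype α] (C : Finset (List α)) (hC : IsCode (C : Set (List α)))
    (hmax : ∀ D : Set (List α), IsCode D → (C : Set (List α)) ⊆ D → D = C) {y : α}
    (hy : List.replicate 4 y ∈ C) (h4 : ∀ w ∈ C, w.count y ≤ 4) :
    (∃ S P : Set (List α), S.Finite ∧ P.Finite ∧ Tiles (C : Set (List α)) S P ∅) ∧
    ∃ D : Finset (List α), IsPrefixCode (D : Set (List α)) ∧
      ∃ F : List α → List α, Set.BijOn F C D ∧ ∀ w ∈ C, (F w).Perm w := by
  have hcomp := H35.FS.maxP α C hC hmax
  obtain ⟨A, B, N, H⟩ := Pool.Agent.H47.OP.exists_ctx C.finite_toSet hC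
    ⟨_, by exact_mod_cast hy⟩ hcomp
  obtain ⟨S, Q, hS, hQ, hT⟩ := tiling (H35.FS.degP H35.FC.gfP) H
    (fun w hw => h4 w (by exact_mod_cast hw)) (by exact_mod_cast hy)
  exact ⟨⟨S, Q, hS, hQ, hT⟩, H35.FC.of_tiles H35.FC.gfP H35.FC.treeP C hC S Q hS hQ hT⟩

end Pool.Agent.H35.FF
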